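import Mathlib
import Pool.Agent.Q279.RP.Fin

/-!
# At least half of the indices in every gcd class are regular

Let `p ≥ 5` be a prime.  The indices `i`, `1 ≤ i ≤ (p - 3) / 2`, are divided into classes by the
odd divisor `g = gcd (2i - 1, p - 1)` of `p - 1`; the class of `g` has `φ((p - 1) / g)` elements
(one less for `g = 1`).  It belongs to the odd characters modulo `p` of order `(p - 1) / g`, all
conjugate over `ℚ`.  Let `Irr p g` be the set of the indices of the class with
`p ∣ num B_{2i}` (`p` is regular if and only if all these sets are empty) and `Reg p g` the rest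
of the class.  Then, with `φ = φ((p - 1) / g)`,

1. `p ^ #Irr ≤ (√p (1 + log p)) ^ φ`, that is `#Irr ≤ (1/2 + log (1 + log p) / log p) φ`;
2. `Reg p g` is not empty;
3. `#Irr ≤ (1/2 + ε) φ` and `#Reg ≥ (1/2 - ε) φ` (with `i = (p - 1) / 2` counted if `g = 1`) for
   all `p ≥ P(ε)`, uniformly in `g`.

Outline.  `N = ∏ ∑_{a < p/2} χ(a)`, over the characters `χ` of order `m = (p - 1) / g`, is the
resultant of the cyclotomic polynomial `Φ_m` and a polynomial with integer coefficients.  It is not
zero, because `L(1, χ) ≠ 0`, and small by the inequality of Pólya and Vinogradov.  Computed with the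
roots of `Φ_m` in `ℤ_p`, its factors are congruent to the sums `∑_{a < p/2} a^(2i - 1)` modulo `p`
for the `i` of the class, which are divisible by `p` if `p ∣ num B_{2i}`.
-/

set_option autoImplicit false

namespace Pool.Agent.Results.MP_a3a416_nt.GcdClasses

open Finset

/-- The irregular indices of the class of `g`: the `i`, `1 ≤ i ≤ (p - 3) / 2`, with
`gcd (2i - 1, p - 1) = g` such that `p` divides the numerator of the Bernoulli number `B_{2i}`. -/
def Irr (p g : ℕ) : Finset ℕ :=
  (Icc 1 ((p - 3) / 2)).filter (fun i => Nat.gcd (2 * i - 1) (p - 1) = g ∧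
    (p : ℤ) ∣ (bernoulli (2 * i)).num)

/-- The regular indices of the class of `g`: the `i`, `1 ≤ i ≤ (p - 3) / 2`, with
`gcd (2i - 1, p - 1) = g` such that `p` does not divide the numerator of `B_{2i}`. -/
def Reg (p g : ℕ) : Finset ℕ :=
  (Icc 1 ((p - 3) / 2)).filter (fun i => Nat.gcd (2 * i - 1) (p - 1) = g ∧
    ¬ (p : ℤ) ∣ (bernoulli (2 * i)).num)

/-- For every prime `p ≥ 5` and every odd divisor `g` of `p - 1`. -/
theorem result :
    (∀ p : ℕ, p.Prime → 5 ≤ p → ∀ g : ℕ, Odd g → g ∣ p - 1 →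
      (p : ℝ) ^ (Irr p g).card ≤
        (Real.sqrt p * (1 + Real.log p)) ^ Nat.totient ((p - 1) / g) ∧
      ((Irr p g).card : ℝ) ≤
        (1 / 2 + Real.log (1 + Real.log p) / Real.log p) * Nat.totient ((p - 1) / g) ∧
      (Reg p g).card + (Irr p g).card + (if g = 1 then 1 else 0) = Nat.totient ((p - 1) / g) ∧
      (Reg p g).Nonempty) ∧
    (∀ ε : ℝ, 0 < ε → ∃ P : ℕ, ∀ p : ℕ, p.Prime → P ≤ p → ∀ g : ℕ, Odd g → g ∣ p - 1 →
      ((Irr p g).card : ℝ) ≤ (1 / 2 + ε) * Nat.totient ((p - 1) / g) ∧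
      (1 / 2 - ε) * Nat.totient ((p - 1) / g) ≤ (Reg p g).card + (if g = 1 then 1 else 0)) := by
  refine ⟨fun p hp hp5 g hg hgd => ?_, Pool.Agent.Q279.RP.asymp⟩
  have : Fact p.Prime := ⟨hp⟩
  exact ⟨Pool.Agent.Q279.RP.main_bound p (by omega) g hg hgd,
    Pool.Agent.Q279.RP.log_form p (by omega) g hg hgd,
    Pool.Agent.Q279.RP.reg_add_irr p (hp.odd_of_ne_two (by omega)) (by omega) g hg hgd,
    Pool.Agent.Q279.RP.reg_nonempty p hp5 g hg hgd⟩

end Pool.Agent.Results.MP_a3a416_nt.GcdClasses
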