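import Mathlib
import Pool.Agent.Q21.HP.Main

/-!
# Sums of pairs of a permutation and regular indices, for every prime

The Hankel determinants of size `m` of the numbers `(2^{2n} - 1) B_{2n} / (2n)!` which start at
`n = 1, 2` or `3` are prime to `p` as long as their entries are `p`-integral (that is, all indices
satisfy `2n ≤ p - 3`). This is shown with Padé approximants of the exponential series modulo `p`
(`Pool/Agent/Q21/HP/Pade.lean`). So some term of the determinant is prime to `p`.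
-/

namespace Pool.Agent.Results.MP_a3a416_nt.HankelPermutations

/-- Let `p` be a prime, `t ∈ {0, 1, 2}` and `4m + 2t + 1 ≤ p`. There is a permutation `π` of
`{0, …, m - 1}` such that for all `i`, with `N = i + π(i) + t + 1`, the prime `p` divides neither the
numerator of `B_{2N}` nor `2^{2N} - 1`. So for `A, B ⊆ {0, …, m - 1}` with `|A| + |B| > m` there are
`a ∈ A`, `b ∈ B` such that `N = a + b + t + 1` has this property. -/
theorem result (p : ℕ) (hp : p.Prime) (t : ℕ) (ht : t ≤ 2) (m : ℕ) (hm : 4 * m + 2 * t + 1 ≤ p) :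
    (∃ π : Equiv.Perm (Fin m), ∀ i : Fin m,
      ¬ ((p : ℤ) ∣ (bernoulli (2 * ((i : ℕ) + (π i : ℕ) + t + 1))).num) ∧
      ¬ (p ∣ 2 ^ (2 * ((i : ℕ) + (π i : ℕ) + t + 1)) - 1)) ∧
    ∀ A B : Finset (Fin m), m < A.card + B.card → ∃ a ∈ A, ∃ b ∈ B,
      ¬ ((p : ℤ) ∣ (bernoulli (2 * ((a : ℕ) + (b : ℕ) + t + 1))).num) ∧
      ¬ (p ∣ 2 ^ (2 * ((a : ℕ) + (b : ℕ) + t + 1)) - 1) := by
  have : Fact p.Prime := ⟨hp⟩
  obtain ⟨π, hπ⟩ := Pool.Agent.Q21.HP.exists_perm (p := p) t m ht hm
  have h1 : ∀ i : Fin m,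
      ¬ ((p : ℤ) ∣ (bernoulli (2 * ((i : ℕ) + (π i : ℕ) + t + 1))).num) ∧
      ¬ (p ∣ 2 ^ (2 * ((i : ℕ) + (π i : ℕ) + t + 1)) - 1) := by
    intro i
    have hi := i.2
    have hj := (π i).2
    exact Pool.Agent.Q21.HP.tt_ne (hπ i) (by omega)
  refine ⟨⟨π, h1⟩, ?_⟩
  intro A B hAB
  have h2 : (A ∩ B.map π.symm.toEmbedding).Nonempty := by
    rw [← Finset.card_pos]
    have h3 := Finset.card_union_add_card_inter A (B.map π.symm.toEmbedding)
    have h4 : (A ∪ B.map π.symm.toEmbedding).card ≤ m := by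
      have := Finset.card_le_univ (A ∪ B.map π.symm.toEmbedding)
      rwa [Fintype.card_fin] at this
    rw [Finset.card_map] at h3
    omega
  obtain ⟨a, ha⟩ := h2
  rw [Finset.mem_inter, Finset.mem_map] at ha
  obtain ⟨hA, b, hb, hab⟩ := ha
  refine ⟨a, hA, b, hb, ?_⟩
  have h5 : π a = b := by
    rw [← hab]
    exact π.apply_symm_apply b
  have h6 := h1 a
  rwa [h5] at h6

end Pool.Agent.Results.MP_a3a416_nt.HankelPermutations
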