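import Mathlib
import Pool.Agent.Q158.RegCount

/-!
# The number of regular indices up to `K`, for every prime and every `K`

Call `i`, `1 ≤ i ≤ (p - 3) / 2`, a regular index of the prime `p` if `p` does not divide the
numerator of `B_{2i}`; a prime is regular if all its indices are.  For every prime `p` and every
`K ≤ (p - 3) / 2`:

1. at least `K ^ (3/4) / 2` of the indices `1, ..., K` are regular (known before: about `√K`);
2. the number of regular indices in `(K/4, K]` times the number of those in `[1, K]` is at least
   `K ^ (3/2) / √192`;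
3. for `1 ≤ d ≤ K / 4` every residue class modulo `d` contains the sums `i + j` of at least
   `K ^ (3/2) / (√192 d)` pairs `(i, j)` of regular indices up to `K`.

`Reg p a b` (in `Pool/Agent/Q158/RegCount.lean`) is the set of the regular indices in `[a, b]`.
The proof is a double count with the theorem `BalancedRegularSums` of the starting files (every
`N`, `2 ≤ N ≤ (p - 3) / 2`, is a sum of two regular indices in at least about `√(N / 3)` ways).
-/

set_option autoImplicit false

namespace Pool.Agent.Results.MP_a3a416_nt.RegularIndexCount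

open Finset Pool.Agent.Q158.RegCount

/-- Let `p` be a prime and `1 ≤ K ≤ (p - 3) / 2`. `Reg p a b` is the set of the `i`, `a ≤ i ≤ b`,
such that `p` does not divide the numerator of `B_{2i}`. -/
theorem result (p : ℕ) (hp : p.Prime) (K : ℕ) (hK1 : 1 ≤ K) (hK : 2 * K + 3 ≤ p) :
    K ^ 3 ≤ 16 * (Reg p 1 K).card ^ 4 ∧
    K ^ 3 ≤ 192 * ((Reg p 1 K).card * (Reg p (K / 4 + 1) K).card) ^ 2 ∧
    ∀ d c : ℕ, 1 ≤ d → 4 * d ≤ K →
      K ^ 3 ≤ 192 * (d * ((Reg p 1 K ×ˢ Reg p 1 K).filter
        (fun x => x.1 + x.2 ≡ c [MOD d])).card) ^ 2 := by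
  refine ⟨main_count p hp K hK1 hK, ?_, fun d c hd hdK => main_class p hp K d hd hdK hK c⟩
  rcases Nat.lt_or_ge K 2 with h | h
  · have h1 : K = 1 := by omega
    subst h1
    have h2 := main_count p hp 1 (le_refl _) hK
    have h3 : 1 ≤ (Reg p 1 1).card := by
      by_contra h0
      have : (Reg p 1 1).card = 0 := by omega
      rw [this] at h2
      norm_num at h2
    have h4 : (1 / 4 + 1) = 1 := by norm_num
    rw [h4]
    have : 1 ≤ ((Reg p 1 1).card * (Reg p 1 1).card) ^ 2 :=
      Nat.one_le_iff_ne_zero.2 (by positivity)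
    omega
  · exact main_upper p hp K h hK

end Pool.Agent.Results.MP_a3a416_nt.RegularIndexCount
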