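import Mathlib
import Pool.Agent.Q84.MB.F1

/-!
# Strings of consecutive primes of bounded diameter with very few irregular indices

For all `m`, `0 < η < 1` and every prime power `d` there are `c > 0` and, for every `Z`, a number `C` with the
following property. For every large `X` there is a set `S` of at most `(log X) ^ (49 / 50)` primes, all larger than
`Z`, such that for EVERY choice of a residue `b q` prime to `q` for every prime `q`, and for EVERY finite set `I` of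
positive integers with sum at most `X ^ (1 - η)`, at least `X ^ (1 - η)` integers `n`, `X < n ≤ 3X`, satisfy: the
interval `[n, n + C]` contains at least `m` primes, and every prime `p` in it

* has at most `K ^ 2 p ^ (η - 1)` irregular indices up to `K`, for every `K`; in particular `p` divides none of the
  numerators of `B_2, B_4, …, B_{2K}` for `K < p ^ ((1 - η) / 2)`;
* divides none of the numerators of the Bernoulli numbers `B_{2k}`, `k ∈ I`;
* is `b q` times a `d`-th power modulo every prime `q ≤ c log X` outside `S` (and `p = b q` modulo `q` if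
  `q ≤ Z`).

Method: the Maynard-Tao theorem relative to a modulus which is a power of `X`, in the form that the mass of the
weights on the good integers of ANY class is at least its expected order divided by a power of `log X`, while the
weights are at most `X ^ ε` pointwise, so that sets of `X ^ (1 - η)` exceptions can be avoided.
-/

set_option autoImplicit false

open scoped Classical

namespace Pool.Agent.Results.MP_a3a416_nt.StringsWithFewIrregularIndices

open Finset Filter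

/-- The number of `m` with `1 ≤ m ≤ K` such that `p` divides the numerator of the Bernoulli number `B_{2m}`. -/
noncomputable def irregularCount (p K : ℕ) : ℕ :=
  ((Icc 1 K).filter fun m => (p : ℤ) ∣ (bernoulli (2 * m)).num).card

/-- The prime `p` has at most `K ^ 2 p ^ (η - 1)` irregular indices up to `K`, for all `K`, it divides none of the
numerators of `B_{2k}`, `k ∈ I`, and it is `b q` times a `d`-th power modulo every prime `q ≤ y` outside `S`, with
`p ≡ b q` if `q ≤ Z`. -/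
def Good (d Z : ℕ) (η y : ℝ) (S : Finset ℕ) (b : ℕ → ℕ) (I : Finset ℕ) (p : ℕ) : Prop :=
  (∀ K : ℕ, (irregularCount p K : ℝ) ≤ (K : ℝ) ^ 2 * (p : ℝ) ^ (η - 1)) ∧
  (∀ k ∈ I, ¬ (p : ℤ) ∣ (bernoulli (2 * k)).num) ∧
  ∀ q : ℕ, q.Prime → (q : ℝ) ≤ y → q ∉ S →
    (q ≤ Z → p ≡ b q [MOD q]) ∧ ∃ z : ℕ, p ≡ b q * z ^ d [MOD q]

/-- **Strings of consecutive primes of bounded diameter with very few irregular indices.** -/
theorem result (m ℓ e : ℕ) (hℓ : ℓ.Prime) (η : ℝ) (hη : 0 < η) (hη1 : η < 1) : ∃ c : ℝ, 0 < c ∧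
    ∀ Z : ℕ, ∃ C : ℕ, ∃ X₀ : ℝ, ∀ X : ℝ, X₀ ≤ X →
    ∃ S : Finset ℕ, (∀ q ∈ S, q.Prime ∧ Z < q) ∧ (S.card : ℝ) ≤ (Real.log X) ^ (49 / 50 : ℝ) ∧
    ∀ b : ℕ → ℕ, (∀ q : ℕ, q.Prime → ¬ q ∣ b q) →
    ∀ I : Finset ℕ, (∀ k ∈ I, 1 ≤ k) → (∑ k ∈ I, (k : ℝ)) ≤ X ^ (1 - η) →
      X ^ (1 - η) ≤ (((Icc 1 ⌊3 * X⌋₊).filter fun n : ℕ => X < n ∧
        m ≤ ((Icc n (n + C)).filter Nat.Prime).card ∧
        ∀ p ∈ Icc n (n + C), p.Prime → Good (ℓ ^ e) Z η (c * Real.log X) S b I p).card : ℝ) := by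
  obtain ⟨c, hc, hmain⟩ := Pool.Agent.Q84.MB.strings (max 1 m) ℓ e (le_max_left _ _) hℓ (η / 4) (by positivity)
  refine ⟨c, hc, fun Z => ?_⟩
  obtain ⟨C, hC⟩ := hmain Z
  have ev : ∀ᶠ X : ℝ in atTop, 5 * X ^ (1 - η / 2) ≤ X ^ (1 - η / 4) := by
    filter_upwards [(tendsto_rpow_atTop (by positivity : (0 : ℝ) < η / 4)).eventually_ge_atTop (5 : ℝ),
      eventually_gt_atTop (0 : ℝ)] with X h1 h2
    have e1 : X ^ (1 - η / 4) = X ^ (η / 4) * X ^ (1 - η / 2) := by
      rw [← Real.rpow_add h2]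
      congr 1
      ring
    rw [e1]
    exact mul_le_mul_of_nonneg_right h1 (by positivity)
  obtain ⟨X₀, hX₀⟩ := eventually_atTop.1 ((hC.and ev).and ((Pool.Agent.Q84.MB.irr_bad η hη hη1).and
    ((eventually_ge_atTop (8 : ℝ)).and (eventually_ge_atTop ((C : ℝ))))))
  refine ⟨C, X₀, fun X hX => ?_⟩
  obtain ⟨⟨hstr, hpow⟩, hirr, hX8, hXC⟩ := hX₀ X hX
  obtain ⟨S, hS1, hS2, hS3⟩ := hstr
  refine ⟨S, hS1, hS2, fun b hb I hI1 hI => ?_⟩
  have hX0 : 0 < X := by linarith
  have hX1 : 1 ≤ X := by linarith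
  -- the bad primes
  obtain ⟨P₁, hP₁⟩ : ∃ P₁, P₁ = (Icc 1 ⌊4 * X⌋₊).filter fun p : ℕ => p.Prime ∧ X < p ∧
    ∃ K : ℕ, (K : ℝ) ^ 2 * (p : ℝ) ^ (η - 1) < Pool.Agent.H332R2.irr p K := ⟨_, rfl⟩
  obtain ⟨P₂, hP₂⟩ : ∃ P₂, P₂ = (Icc 1 ⌊4 * X⌋₊).filter fun p : ℕ => p.Prime ∧ X < p ∧
    ∃ k ∈ I, (p : ℤ) ∣ (bernoulli (2 * k)).num := ⟨_, rfl⟩
  have h1 : (P₁.card : ℝ) ≤ X ^ (1 - η / 2) := by
    apply hirr
    intro p hp
    rw [hP₁, mem_filter, mem_Icc] at hp
    exact ⟨hp.2.1, hp.2.2.1, (Nat.le_floor_iff (by linarith)).1 hp.1.2, hp.2.2.2⟩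
  have h2 : (P₂.card : ℝ) ≤ 4 * X ^ (1 - η) := by
    have hsub : P₂ ⊆ I.biUnion fun k => P₂.filter fun p => p ∣ Pool.Agent.H332R2.nu k := by
      intro p hp
      have hp' := hp
      rw [hP₂, mem_filter] at hp'
      obtain ⟨-, -, -, k, hk, hd⟩ := hp'
      rw [mem_biUnion]
      exact ⟨k, hk, mem_filter.2 ⟨hp, (Pool.Agent.H332R2.dvd_nu_iff p k).1 hd⟩⟩
    have hL : 0 < Real.log X := Real.log_pos (by linarith)
    have h3 : (P₂.card : ℝ) ≤ ∑ k ∈ I, ((P₂.filter fun p => p ∣ Pool.Agent.H332R2.nu k).card : ℝ) := by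
      exact_mod_cast (card_le_card hsub).trans card_biUnion_le
    have h4 : ∀ k ∈ I, ((P₂.filter fun p => p ∣ Pool.Agent.H332R2.nu k).card : ℝ) ≤ 4 * (k : ℝ) := by
      intro k hk
      have h5 := Pool.Agent.H332R2.card_primes_dvd (Pool.Agent.H332R2.nu k) (Pool.Agent.H332R2.nu_ne_zero k) X
        hX1 (P₂.filter fun p => p ∣ Pool.Agent.H332R2.nu k) (fun p hp => by
          rw [mem_filter, hP₂, mem_filter] at hp
          exact ⟨hp.1.2.1, hp.1.2.2.1.le, hp.2⟩)
      have hk1 := hI1 k hk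
      have hk0 : (1 : ℝ) ≤ k := by exact_mod_cast hk1
      have h6 := Pool.Agent.H332R2.log_nu_le k (by omega)
      have h7 : (k : ℝ) ≤ X := by
        have h8 : (k : ℝ) ≤ ∑ k ∈ I, (k : ℝ) := single_le_sum (f := fun k : ℕ => (k : ℝ))
          (fun i _ => Nat.cast_nonneg i) hk
        have h9 : X ^ (1 - η) ≤ X ^ (1 : ℝ) := Real.rpow_le_rpow_of_exponent_le hX1 (by linarith)
        rw [Real.rpow_one] at h9
        linarith
      have h8 : Real.log (2 * k) ≤ 2 * Real.log X := by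
        have h9 : (2 * (k : ℝ)) ≤ X * X := by nlinarith
        have h10 := Real.log_le_log (by linarith : (0 : ℝ) < 2 * k) h9
        rw [Real.log_mul hX0.ne' hX0.ne'] at h10
        linarith
      have h9 : ((P₂.filter fun p => p ∣ Pool.Agent.H332R2.nu k).card : ℝ) * Real.log X ≤
          (4 * (k : ℝ)) * Real.log X := by
        refine h5.trans (h6.trans ?_)
        calc 2 * (k : ℝ) * Real.log (2 * k) ≤ 2 * k * (2 * Real.log X) :=
              mul_le_mul_of_nonneg_left h8 (by positivity)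
          _ = _ := by ring
      exact le_of_mul_le_mul_right h9 hL
    refine h3.trans ((sum_le_sum h4).trans ?_)
    rw [← mul_sum]
    linarith
  have hbad : ((P₁ ∪ P₂).card : ℝ) ≤ X ^ (1 - η / 4) := by
    have h3 : ((P₁ ∪ P₂).card : ℝ) ≤ P₁.card + P₂.card := by exact_mod_cast card_union_le _ _
    have h4 : X ^ (1 - η) ≤ X ^ (1 - η / 2) := Real.rpow_le_rpow_of_exponent_le hX1 (by linarith)
    linarith
  obtain ⟨G, hGc, hG⟩ := hS3 b hb (P₁ ∪ P₂) hbad
  have h3 : X ^ (1 - η) ≤ X ^ (1 - η / 4) := Real.rpow_le_rpow_of_exponent_le hX1 (by linarith)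
  refine h3.trans (hGc.trans ?_)
  have hsub : G ⊆ (Icc 1 ⌊3 * X⌋₊).filter fun n : ℕ => X < n ∧
        m ≤ ((Icc n (n + C)).filter Nat.Prime).card ∧
        ∀ p ∈ Icc n (n + C), p.Prime → Good (ℓ ^ e) Z η (c * Real.log X) S b I p := by
    intro n hn
    obtain ⟨hXn, hn3, hm, hstr⟩ := hG n hn
    rw [mem_filter, mem_Icc]
    refine ⟨⟨?_, Nat.le_floor hn3⟩, hXn, (le_max_right 1 m).trans hm, fun p hp hpp => ?_⟩
    · have : (0 : ℝ) < n := by linarith
      exact_mod_cast this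
    · obtain ⟨hpb, hres⟩ := hstr p hp hpp
      rw [mem_Icc] at hp
      have hXp : X < p := lt_of_lt_of_le hXn (by exact_mod_cast hp.1)
      have hp4 : p ≤ ⌊4 * X⌋₊ := by
        apply Nat.le_floor
        have h5 : (p : ℝ) ≤ n + C := by exact_mod_cast hp.2
        linarith
      rw [mem_union, not_or] at hpb
      refine ⟨fun K => ?_, fun k hk hd => ?_, fun q hq hqy hqS => ?_⟩
      · by_contra hcon
        push Not at hcon
        apply hpb.1
        rw [hP₁, mem_filter, mem_Icc]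
        exact ⟨⟨hpp.one_lt.le, hp4⟩, hpp, hXp, K, hcon⟩
      · apply hpb.2
        rw [hP₂, mem_filter, mem_Icc]
        exact ⟨⟨hpp.one_lt.le, hp4⟩, hpp, hXp, k, hk, hd⟩
      · obtain ⟨h5, z, -, h6⟩ := hres q hq hqy hqS
        exact ⟨h5, z, h6⟩
  exact_mod_cast card_le_card hsub

end Pool.Agent.Results.MP_a3a416_nt.StringsWithFewIrregularIndices
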